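import Mathlib

set_option autoImplicit false

/-!
# The entropy of the bounded orbits of the rotation-hyperbolic cocycle family is discontinuous at `θ = 0`

`h 0 = 0`, but `h θ ≥ (log 2) / 14` for all `θ ≠ 0` with `|θ| ≤ 1 / 100`. So the answer to Q1 is negative.

Idea. In polar coordinates of the hyperbolic plane `M Mᵀ`, `M ∈ SL(2, ℝ)`, the letter `D` is a translation and the
letter `R` the rotation with the angle `2 θ`. If the size of `M` is at most `16 * 4 ^ K`, there is a word with at most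
`12 K + π / θ` letters which brings it back to a size at most `16`: first rotate until the direction is at an angle
between `0` and `2 θ` from the contracted direction; then use `D`, which divides the size by at least `3` and makes the
angle at most `6` times as large, and at most `5` letters `R`, which bring the angle back to the interval `[0, 2 θ]`, and
so on. So one can write `K` arbitrary pairs `D R` or `R D`, then return, then again `K` arbitrary pairs, etc. This gives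
`2 ^ (K N)` words of length `N (14 K + π / θ)`, for all `K`.
-/

namespace Pool.Agent.Results.MP_3f0cb5_an.DiscontinuousAtZero

open Filter Topology

/-- The matrix `D`. -/
noncomputable def D : Matrix (Fin 2) (Fin 2) ℝ := !![2, 0; 0, 1 / 2]

/-- The rotation `R_θ`. -/
noncomputable def R (θ : ℝ) : Matrix (Fin 2) (Fin 2) ℝ :=
  !![Real.cos θ, -Real.sin θ; Real.sin θ, Real.cos θ]

/-- The iterate `σ ^ m`, `m ∈ ℤ`, of the left shift of the sequences `x : ℤ → {0, 1}`. (The symbols `1` and `2` of the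
problem are here `0` and `1`.) -/
def shift (m : ℤ) (x : ℤ → Fin 2) : ℤ → Fin 2 := fun i => x (i + m)

/-- The cocycle: `A_θ(x) = D` if the symbol at `0` is the first one, and `R_θ` if it is the second one. -/
noncomputable def A (θ : ℝ) (x : ℤ → Fin 2) : Matrix (Fin 2) (Fin 2) ℝ := if x 0 = 0 then D else R θ

/-- The fiber products `A_{θ,n}(x) = A_θ(σ^(n-1) x) ⋯ A_θ(σ x) A_θ(x)`. -/
noncomputable def prod (θ : ℝ) (x : ℤ → Fin 2) : ℕ → Matrix (Fin 2) (Fin 2) ℝ
  | 0 => 1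
  | n + 1 => A θ (shift n x) * prod θ x n

/-- The largest absolute value of an entry. -/
noncomputable def nrm (M : Matrix (Fin 2) (Fin 2) ℝ) : ℝ := max (max |M 0 0| |M 0 1|) (max |M 1 0| |M 1 1|)

/-- The set `B(θ, κ)`. -/
def B (θ κ : ℝ) : Set (ℤ → Fin 2) := {x | ∀ (m : ℤ) (n : ℕ), nrm (prod θ (shift m x) n) ≤ κ}

/-- The words of length `n` of a set of sequences. -/
def words (S : Set (ℤ → Fin 2)) (n : ℕ) : Set (Fin n → Fin 2) := {w | ∃ x ∈ S, ∀ i : Fin n, w i = x (i : ℕ)}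

/-- The topological entropy of the shift on a closed shift invariant set `S`: the exponential growth rate of the number
of words of length `n`. -/
noncomputable def entropy (S : Set (ℤ → Fin 2)) : ℝ :=
  limsup (fun n : ℕ => Real.log ((words S n).ncard : ℝ) / n) atTop

/-- `h(θ) = sup_κ h_top(σ | B(θ, κ))`. -/
noncomputable def h (θ : ℝ) : ℝ := ⨆ κ : ℕ, entropy (B θ κ)

/-! ### proofs -/

section basic

/-- the letters -/
noncomputable def st (θ : ℝ) (s : Fin 2) : Matrix (Fin 2) (Fin 2) ℝ := if s = 0 then D else R θ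

theorem A_shift (θ : ℝ) (m : ℤ) (x : ℤ → Fin 2) : A θ (shift m x) = st θ (x m) := by
  unfold A shift st
  rw [zero_add]

theorem prod_succ (θ : ℝ) (x : ℤ → Fin 2) (n : ℕ) : prod θ x (n + 1) = st θ (x n) * prod θ x n := by
  rw [prod, A_shift]

/-- the size -/
def T (M : Matrix (Fin 2) (Fin 2) ℝ) : ℝ := M 0 0 ^ 2 + M 0 1 ^ 2 + M 1 0 ^ 2 + M 1 1 ^ 2

noncomputable def u (M : Matrix (Fin 2) (Fin 2) ℝ) : ℝ := (M 0 0 ^ 2 + M 0 1 ^ 2 - M 1 0 ^ 2 - M 1 1 ^ 2) / 2

def b (M : Matrix (Fin 2) (Fin 2) ℝ) : ℝ := M 0 0 * M 1 0 + M 0 1 * M 1 1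

def dt (M : Matrix (Fin 2) (Fin 2) ℝ) : ℝ := M 0 0 * M 1 1 - M 0 1 * M 1 0

theorem T_nonneg (M : Matrix (Fin 2) (Fin 2) ℝ) : 0 ≤ T M := by unfold T; positivity

theorem T_sq {M : Matrix (Fin 2) (Fin 2) ℝ} (hM : dt M = 1) : (T M) ^ 2 / 4 = 1 + (u M ^ 2 + b M ^ 2) := by
  have h1 : (T M) ^ 2 / 4 = dt M ^ 2 + (u M ^ 2 + b M ^ 2) := by unfold T u b dt; ring
  rw [h1, hM]; ring

theorem D_T (M : Matrix (Fin 2) (Fin 2) ℝ) : T (D * M) = 17 / 8 * T M + 15 / 4 * u M := by
  simp only [T, u, D, Matrix.mul_apply, Fin.sum_univ_two, Matrix.of_apply, Matrix.cons_val', Matrix.cons_val_zero,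
    Matrix.cons_val_one, Matrix.cons_val_fin_one]
  ring

theorem D_u (M : Matrix (Fin 2) (Fin 2) ℝ) : u (D * M) = 15 / 16 * T M + 17 / 8 * u M := by
  simp only [T, u, D, Matrix.mul_apply, Fin.sum_univ_two, Matrix.of_apply, Matrix.cons_val', Matrix.cons_val_zero,
    Matrix.cons_val_one, Matrix.cons_val_fin_one]
  ring

theorem D_b (M : Matrix (Fin 2) (Fin 2) ℝ) : b (D * M) = b M := by
  simp only [b, D, Matrix.mul_apply, Fin.sum_univ_two, Matrix.of_apply, Matrix.cons_val', Matrix.cons_val_zero,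
    Matrix.cons_val_one, Matrix.cons_val_fin_one]
  ring

theorem D_dt (M : Matrix (Fin 2) (Fin 2) ℝ) : dt (D * M) = dt M := by
  simp only [dt, D, Matrix.mul_apply, Fin.sum_univ_two, Matrix.of_apply, Matrix.cons_val', Matrix.cons_val_zero,
    Matrix.cons_val_one, Matrix.cons_val_fin_one]
  ring

theorem R_T (θ : ℝ) (M : Matrix (Fin 2) (Fin 2) ℝ) : T (R θ * M) = T M := by
  simp only [T, R, Matrix.mul_apply, Fin.sum_univ_two, Matrix.of_apply, Matrix.cons_val', Matrix.cons_val_zero,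
    Matrix.cons_val_one, Matrix.cons_val_fin_one]
  linear_combination (M 0 0 ^ 2 + M 0 1 ^ 2 + M 1 0 ^ 2 + M 1 1 ^ 2) * (Real.sin_sq_add_cos_sq θ)

theorem T_R (θ : ℝ) (M : Matrix (Fin 2) (Fin 2) ℝ) : T (M * R θ) = T M := by
  simp only [T, R, Matrix.mul_apply, Fin.sum_univ_two, Matrix.of_apply, Matrix.cons_val', Matrix.cons_val_zero,
    Matrix.cons_val_one, Matrix.cons_val_fin_one]
  linear_combination (M 0 0 ^ 2 + M 0 1 ^ 2 + M 1 0 ^ 2 + M 1 1 ^ 2) * (Real.sin_sq_add_cos_sq θ)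

theorem R_u (θ : ℝ) (M : Matrix (Fin 2) (Fin 2) ℝ) :
    u (R θ * M) = u M * Real.cos (2 * θ) - b M * Real.sin (2 * θ) := by
  rw [Real.sin_two_mul, Real.cos_two_mul']
  simp only [u, b, R, Matrix.mul_apply, Fin.sum_univ_two, Matrix.of_apply, Matrix.cons_val', Matrix.cons_val_zero,
    Matrix.cons_val_one, Matrix.cons_val_fin_one]
  ring

theorem R_b (θ : ℝ) (M : Matrix (Fin 2) (Fin 2) ℝ) :
    b (R θ * M) = u M * Real.sin (2 * θ) + b M * Real.cos (2 * θ) := by
  rw [Real.sin_two_mul, Real.cos_two_mul']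
  simp only [u, b, R, Matrix.mul_apply, Fin.sum_univ_two, Matrix.of_apply, Matrix.cons_val', Matrix.cons_val_zero,
    Matrix.cons_val_one, Matrix.cons_val_fin_one]
  ring

theorem R_dt (θ : ℝ) (M : Matrix (Fin 2) (Fin 2) ℝ) : dt (R θ * M) = dt M := by
  simp only [dt, R, Matrix.mul_apply, Fin.sum_univ_two, Matrix.of_apply, Matrix.cons_val', Matrix.cons_val_zero,
    Matrix.cons_val_one, Matrix.cons_val_fin_one]
  linear_combination (M 0 0 * M 1 1 - M 0 1 * M 1 0) * (Real.sin_sq_add_cos_sq θ)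

theorem st_dt (θ : ℝ) (s : Fin 2) (M : Matrix (Fin 2) (Fin 2) ℝ) : dt (st θ s * M) = dt M := by
  unfold st
  split_ifs
  · exact D_dt M
  · exact R_dt θ M

theorem st_T (θ : ℝ) (s : Fin 2) (M : Matrix (Fin 2) (Fin 2) ℝ) : T (st θ s * M) ≤ 4 * T M := by
  unfold st
  split_ifs
  · rw [D_T]
    have : u M ≤ T M / 2 := by
      unfold u T
      nlinarith [sq_nonneg (M 1 0), sq_nonneg (M 1 1)]
    linarith
  · rw [R_T]
    linarith [T_nonneg M]

/-- the action of a word -/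
noncomputable def act (θ : ℝ) (W : List (Fin 2)) (M : Matrix (Fin 2) (Fin 2) ℝ) : Matrix (Fin 2) (Fin 2) ℝ :=
  W.foldl (fun M s => st θ s * M) M

theorem act_nil (θ : ℝ) (M : Matrix (Fin 2) (Fin 2) ℝ) : act θ [] M = M := rfl

theorem act_cons (θ : ℝ) (s : Fin 2) (W : List (Fin 2)) (M : Matrix (Fin 2) (Fin 2) ℝ) :
    act θ (s :: W) M = act θ W (st θ s * M) := rfl

theorem act_append (θ : ℝ) (V W : List (Fin 2)) (M : Matrix (Fin 2) (Fin 2) ℝ) :
    act θ (V ++ W) M = act θ W (act θ V M) := by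
  unfold act
  rw [List.foldl_append]

theorem act_dt (θ : ℝ) (W : List (Fin 2)) (M : Matrix (Fin 2) (Fin 2) ℝ) : dt (act θ W M) = dt M := by
  induction W generalizing M with
  | nil => rfl
  | cons s W ih => rw [act_cons, ih, st_dt]

theorem act_T (θ : ℝ) (W : List (Fin 2)) (M : Matrix (Fin 2) (Fin 2) ℝ) : T (act θ W M) ≤ 4 ^ W.length * T M := by
  induction W generalizing M with
  | nil => simp [act_nil]
  | cons s W ih =>
    rw [act_cons, List.length_cons, pow_succ]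
    refine (ih _).trans ?_
    have h1 := st_T θ s M
    have h2 : (0 : ℝ) ≤ 4 ^ W.length := by positivity
    nlinarith

/-- polar coordinates: `x` is the angle from the contracted direction -/
def St (M : Matrix (Fin 2) (Fin 2) ℝ) (ρ x : ℝ) : Prop :=
  dt M = 1 ∧ 0 ≤ ρ ∧ u M = -(ρ * Real.cos x) ∧ b M = ρ * Real.sin x

theorem St.sq {M : Matrix (Fin 2) (Fin 2) ℝ} {ρ x : ℝ} (h : St M ρ x) : (T M) ^ 2 / 4 = 1 + ρ ^ 2 := by
  rw [T_sq h.1, h.2.2.1, h.2.2.2]
  linear_combination ρ ^ 2 * (Real.sin_sq_add_cos_sq x)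

theorem St_R {θ : ℝ} {M : Matrix (Fin 2) (Fin 2) ℝ} {ρ x : ℝ} (h : St M ρ x) : St (R θ * M) ρ (x - 2 * θ) := by
  obtain ⟨h1, h2, h3, h4⟩ := h
  refine ⟨by rw [R_dt]; exact h1, h2, ?_, ?_⟩
  · rw [R_u, h3, h4, Real.cos_sub]; ring
  · rw [R_b, h3, h4, Real.sin_sub]; ring

theorem St_Rj {θ : ℝ} (j : ℕ) {M : Matrix (Fin 2) (Fin 2) ℝ} {ρ x : ℝ} (h : St M ρ x) :
    St (act θ (List.replicate j 1) M) ρ (x - 2 * θ * j) ∧ T (act θ (List.replicate j 1) M) = T M := by
  induction j generalizing M x with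
  | zero => simpa [act_nil] using h
  | succ j ih =>
    rw [List.replicate_succ, act_cons]
    have e1 : st θ 1 = R θ := by unfold st; rw [if_neg (by decide)]
    rw [e1]
    obtain ⟨h1, h2⟩ := ih (St_R (θ := θ) h)
    refine ⟨?_, by rw [h2, R_T]⟩
    have e2 : x - 2 * θ * ((j + 1 : ℕ) : ℝ) = x - 2 * θ - 2 * θ * j := by push_cast; ring
    rw [e2]
    exact h1

theorem polar (p q : ℝ) : ∃ ρ x : ℝ, 0 ≤ ρ ∧ 0 ≤ x ∧ x ≤ 2 * Real.pi ∧ p = -(ρ * Real.cos x) ∧ q = ρ * Real.sin x := by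
  set z : ℂ := ⟨-p, q⟩ with hz
  have h1 : ‖z‖ * Real.cos z.arg = -p := Complex.norm_mul_cos_arg z
  have h2 : ‖z‖ * Real.sin z.arg = q := Complex.norm_mul_sin_arg z
  by_cases h0 : 0 ≤ z.arg
  · exact ⟨‖z‖, z.arg, norm_nonneg _, h0, by linarith [Complex.arg_le_pi z, Real.pi_pos], by linarith, by linarith⟩
  · push Not at h0
    refine ⟨‖z‖, z.arg + 2 * Real.pi, norm_nonneg _, by linarith [Complex.neg_pi_lt_arg z, Real.pi_pos], by linarith, ?_, ?_⟩
    · rw [Real.cos_add_two_pi]; linarith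
    · rw [Real.sin_add_two_pi]; linarith

theorem St_exists {M : Matrix (Fin 2) (Fin 2) ℝ} (hM : dt M = 1) : ∃ ρ x : ℝ, 0 ≤ x ∧ x ≤ 2 * Real.pi ∧ St M ρ x := by
  obtain ⟨ρ, x, h1, h2, h3, h4, h5⟩ := polar (u M) (b M)
  exact ⟨ρ, x, h2, h3, hM, h1, h4, h5⟩

/-- rotate into the window -/
theorem toWin {θ : ℝ} (hθ : 0 < θ) {M : Matrix (Fin 2) (Fin 2) ℝ} {ρ x : ℝ} (h : St M ρ x) (hx : 0 ≤ x) :
    ∃ x' : ℝ, 0 ≤ x' ∧ x' ≤ 2 * θ ∧ St (act θ (List.replicate ⌊x / (2 * θ)⌋₊ 1) M) ρ x' ∧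
      T (act θ (List.replicate ⌊x / (2 * θ)⌋₊ 1) M) = T M := by
  obtain ⟨h1, h2⟩ := St_Rj (θ := θ) ⌊x / (2 * θ)⌋₊ h
  refine ⟨_, ?_, ?_, h1, h2⟩
  · have h3 := Nat.floor_le (show 0 ≤ x / (2 * θ) by positivity)
    rw [le_div_iff₀ (by positivity)] at h3
    linarith
  · have h3 := Nat.lt_floor_add_one (x / (2 * θ))
    rw [div_lt_iff₀ (by positivity)] at h3
    linarith

/-- one letter `D` in the window -/
theorem St_D {θ : ℝ} (hθ : 0 < θ) (hθ1 : θ ≤ 1 / 100) {M : Matrix (Fin 2) (Fin 2) ℝ} {ρ x : ℝ} (h : St M ρ x)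
    (hx0 : 0 ≤ x) (hx1 : x ≤ 2 * θ) (hT : 16 ≤ T M) :
    T (D * M) ≤ T M / 3 ∧ ∃ ρ' x' : ℝ, St (D * M) ρ' x' ∧ 0 ≤ x' ∧ x' < 12 * θ := by
  have hsq := h.sq
  obtain ⟨h1, h2, h3, h4⟩ := h
  -- the radius
  have hρ1 : 99 / 200 * T M ≤ ρ := by
    by_contra hlt
    push Not at hlt
    have h5 : ρ ^ 2 < (99 / 200 * T M) ^ 2 := by
      apply pow_lt_pow_left₀ hlt h2 (by norm_num)
    nlinarith
  have hρ2 : ρ ≤ T M / 2 := by
    by_contra hlt
    push Not at hlt
    have h5 : (T M / 2) ^ 2 < ρ ^ 2 := by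
      apply pow_lt_pow_left₀ hlt (by linarith [T_nonneg M]) (by norm_num)
    nlinarith
  have hcos : 999 / 1000 ≤ Real.cos x := by
    have h5 := Real.one_sub_sq_div_two_le_cos (x := x)
    nlinarith
  have hcos1 : Real.cos x ≤ 1 := Real.cos_le_one x
  have hsin0 : 0 ≤ Real.sin x := Real.sin_nonneg_of_nonneg_of_le_pi hx0 (by linarith [Real.pi_gt_three])
  have hsin1 : Real.sin x ≤ x := Real.sin_le hx0
  have hρc : 99 / 200 * T M * (999 / 1000) ≤ ρ * Real.cos x :=
    mul_le_mul hρ1 hcos (by norm_num) h2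
  have hρs : ρ * Real.sin x ≤ T M / 2 * (2 * θ) :=
    mul_le_mul hρ2 (hsin1.trans hx1) hsin0 (by linarith)
  refine ⟨?_, ?_⟩
  · rw [D_T, h3]
    nlinarith
  · set p : ℝ := -(u (D * M)) with hp
    set q : ℝ := b (D * M) with hq
    have hp1 : 11 / 100 * T M ≤ p := by
      rw [hp, D_u, h3]
      nlinarith
    have hp0 : 0 < p := by linarith
    have hq0 : 0 ≤ q := by
      rw [hq, D_b, h4]
      positivity
    have hq1 : q ≤ T M / 2 * (2 * θ) := by
      rw [hq, D_b, h4]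
      exact hρs
    have hr : q / p < 12 * θ := by
      rw [div_lt_iff₀ hp0]
      nlinarith
    have hr0 : 0 ≤ q / p := by positivity
    refine ⟨Real.sqrt (p ^ 2 + q ^ 2), Real.arctan (q / p), ⟨by rw [D_dt]; exact h1, Real.sqrt_nonneg _, ?_, ?_⟩,
      Real.arctan_nonneg.2 hr0, lt_of_le_of_lt ?_ hr⟩
    · have e1 : u (D * M) = -p := by rw [hp]; ring
      rw [e1, Real.cos_arctan]
      have e2 : 1 + (q / p) ^ 2 = (p ^ 2 + q ^ 2) / p ^ 2 := by field_simp
      rw [e2, Real.sqrt_div (by positivity), Real.sqrt_sq hp0.le]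
      have h5 : 0 < Real.sqrt (p ^ 2 + q ^ 2) := Real.sqrt_pos.2 (by positivity)
      field_simp
    · rw [Real.sin_arctan]
      have e2 : 1 + (q / p) ^ 2 = (p ^ 2 + q ^ 2) / p ^ 2 := by field_simp
      rw [e2, Real.sqrt_div (by positivity), Real.sqrt_sq hp0.le]
      have h5 : 0 < Real.sqrt (p ^ 2 + q ^ 2) := Real.sqrt_pos.2 (by positivity)
      field_simp
      exact hq.symm
    · have h5 := Real.le_tan (Real.arctan_nonneg.2 hr0) (Real.arctan_lt_pi_div_two _)
      rwa [Real.tan_arctan] at h5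

/-- the way back inside the window -/
theorem inn {θ : ℝ} (hθ : 0 < θ) (hθ1 : θ ≤ 1 / 100) (n : ℕ) : ∀ (M : Matrix (Fin 2) (Fin 2) ℝ) (ρ x : ℝ),
    St M ρ x → 0 ≤ x → x ≤ 2 * θ → T M ≤ 16 * 3 ^ n → ∃ W : List (Fin 2), W.length ≤ 6 * n ∧ T (act θ W M) ≤ 16 := by
  induction n with
  | zero =>
    intro M ρ x _ _ _ hT
    exact ⟨[], by simp, by simpa [act_nil] using hT⟩
  | succ n ih =>
    intro M ρ x h hx0 hx1 hT
    by_cases h16 : T M ≤ 16
    · exact ⟨[], by simp, by simpa [act_nil] using h16⟩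
    · push Not at h16
      obtain ⟨h1, ρ', x', h2, h3, h4⟩ := St_D hθ hθ1 h hx0 hx1 h16.le
      obtain ⟨x'', h5, h6, h7, h8⟩ := toWin hθ h2 h3
      obtain ⟨W, hW1, hW2⟩ := ih _ _ _ h7 h5 h6 (by
        rw [h8]
        rw [pow_succ] at hT
        linarith)
      refine ⟨0 :: (List.replicate ⌊x' / (2 * θ)⌋₊ 1 ++ W), ?_, ?_⟩
      · rw [List.length_cons, List.length_append, List.length_replicate]
        have h9 : ⌊x' / (2 * θ)⌋₊ < 6 := by
          rw [Nat.floor_lt (by positivity), div_lt_iff₀ (by positivity)]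
          push_cast
          linarith
        omega
      · rw [act_cons, act_append]
        have e1 : st θ 0 = D := by unfold st; rw [if_pos rfl]
        rw [e1]
        exact hW2

theorem act_R_T (θ : ℝ) (j : ℕ) (M : Matrix (Fin 2) (Fin 2) ℝ) : T (act θ (List.replicate j 1) M) = T M := by
  induction j generalizing M with
  | zero => simp [act_nil]
  | succ j ih =>
    rw [List.replicate_succ, act_cons]
    have e1 : st θ 1 = R θ := by unfold st; rw [if_neg (by decide)]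
    rw [e1, ih, R_T]

/-- the length of the way back -/
noncomputable def Lr (θ : ℝ) (K : ℕ) : ℕ := ⌊Real.pi / θ⌋₊ + 12 * K

theorem ret {θ : ℝ} (hθ : 0 < θ) (hθ1 : θ ≤ 1 / 100) (K : ℕ) (M : Matrix (Fin 2) (Fin 2) ℝ) (hM : dt M = 1)
    (hT : T M ≤ 16 * 4 ^ K) : ∃ W : List (Fin 2), W.length = Lr θ K ∧ T (act θ W M) ≤ 16 := by
  obtain ⟨ρ, x, hx0, hx1, h⟩ := St_exists hM
  obtain ⟨x', h5, h6, h7, h8⟩ := toWin hθ h hx0
  obtain ⟨W, hW1, hW2⟩ := inn hθ hθ1 (2 * K) _ _ _ h7 h5 h6 (by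
    rw [h8, pow_mul]
    refine hT.trans ?_
    have : (4 : ℝ) ^ K ≤ (3 ^ 2) ^ K := pow_le_pow_left₀ (by norm_num) (by norm_num) K
    linarith)
  have hj : ⌊x / (2 * θ)⌋₊ ≤ ⌊Real.pi / θ⌋₊ := by
    apply Nat.floor_le_floor
    rw [div_le_div_iff₀ (by positivity) hθ]
    nlinarith
  set V : List (Fin 2) := List.replicate ⌊x / (2 * θ)⌋₊ 1 ++ W with hV
  have hVl : V.length ≤ Lr θ K := by
    rw [hV, List.length_append, List.length_replicate, Lr]
    omega
  refine ⟨V ++ List.replicate (Lr θ K - V.length) 1, ?_, ?_⟩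
  · rw [List.length_append, List.length_replicate]
    omega
  · rw [act_append, act_R_T, hV, act_append]
    exact hW2

end basic

section seq

def code (t : Bool) : List (Fin 2) := if t then [1, 0] else [0, 1]

theorem code_T (θ : ℝ) (t : Bool) (M : Matrix (Fin 2) (Fin 2) ℝ) : T (act θ (code t) M) ≤ 4 * T M := by
  have e1 : ∀ M, T (st θ 1 * M) = T M := by
    intro M
    have e1 : st θ 1 = R θ := by unfold st; rw [if_neg (by decide)]
    rw [e1, R_T]
  cases t
  · show T (st θ 1 * (st θ 0 * M)) ≤ 4 * T M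
    rw [e1]
    exact st_T θ 0 M
  · show T (st θ 0 * (st θ 1 * M)) ≤ 4 * T M
    refine (st_T θ 0 _).trans ?_
    rw [e1]

theorem out_T (θ : ℝ) (l : List Bool) (M : Matrix (Fin 2) (Fin 2) ℝ) :
    T (act θ (l.flatMap code) M) ≤ 4 ^ l.length * T M := by
  induction l generalizing M with
  | nil => simp [act_nil]
  | cons t l ih =>
    rw [List.flatMap_cons, act_append, List.length_cons, pow_succ]
    refine (ih _).trans ?_
    have h1 := code_T θ t M
    have h2 : (0 : ℝ) ≤ 4 ^ l.length := by positivity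
    nlinarith

theorem out_length (l : List Bool) : (l.flatMap code).length = 2 * l.length := by
  induction l with
  | nil => rfl
  | cons t l ih =>
    rw [List.flatMap_cons, List.length_append, ih, List.length_cons]
    have : (code t).length = 2 := by cases t <;> rfl
    omega

theorem out_get (l : List Bool) (i : ℕ) (hi : i < l.length) :
    (l.flatMap code)[2 * i]? = some (if l[i] then 1 else 0) := by
  induction l generalizing i with
  | nil => simp at hi
  | cons t l ih =>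
    rw [List.flatMap_cons]
    have hl : (code t).length = 2 := by cases t <;> rfl
    rcases Nat.eq_zero_or_pos i with rfl | hi0
    · cases t <;> rfl
    · obtain ⟨j, rfl⟩ : ∃ j, i = j + 1 := ⟨i - 1, by omega⟩
      rw [List.getElem?_append_right (by omega), hl, show 2 * (j + 1) - 2 = 2 * j by omega,
        ih j (by simpa using hi)]
      rfl

open Classical in
/-- the word for the way back, of length exactly `Lr θ K` -/
noncomputable def retw (θ : ℝ) (K : ℕ) (M : Matrix (Fin 2) (Fin 2) ℝ) : List (Fin 2) :=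
  if h : ∃ W : List (Fin 2), W.length = Lr θ K ∧ T (act θ W M) ≤ 16 then h.choose else List.replicate (Lr θ K) 1

theorem retw_length (θ : ℝ) (K : ℕ) (M : Matrix (Fin 2) (Fin 2) ℝ) : (retw θ K M).length = Lr θ K := by
  unfold retw
  split_ifs with h
  · exact h.choose_spec.1
  · exact List.length_replicate

theorem retw_T {θ : ℝ} (hθ : 0 < θ) (hθ1 : θ ≤ 1 / 100) (K : ℕ) (M : Matrix (Fin 2) (Fin 2) ℝ) (hM : dt M = 1)
    (hT : T M ≤ 16 * 4 ^ K) : T (act θ (retw θ K M) M) ≤ 16 := by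
  have h := ret hθ hθ1 K M hM hT
  unfold retw
  rw [dif_pos h]
  exact h.choose_spec.2

/-- a block -/
noncomputable def blk (θ : ℝ) (K : ℕ) (l : List Bool) (M : Matrix (Fin 2) (Fin 2) ℝ) : List (Fin 2) :=
  l.flatMap code ++ retw θ K (act θ (l.flatMap code) M)

noncomputable def Lb (θ : ℝ) (K : ℕ) : ℕ := 2 * K + Lr θ K

theorem blk_length (θ : ℝ) (K : ℕ) (l : List Bool) (hl : l.length = K) (M : Matrix (Fin 2) (Fin 2) ℝ) :
    (blk θ K l M).length = Lb θ K := by
  unfold blk Lb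
  rw [List.length_append, out_length, retw_length, hl]

theorem blk_T {θ : ℝ} (hθ : 0 < θ) (hθ1 : θ ≤ 1 / 100) (K : ℕ) (l : List Bool) (hl : l.length = K)
    (M : Matrix (Fin 2) (Fin 2) ℝ) (hM : dt M = 1) (hT : T M ≤ 16) : T (act θ (blk θ K l M) M) ≤ 16 := by
  unfold blk
  rw [act_append]
  apply retw_T hθ hθ1 K _ (by rw [act_dt]; exact hM)
  refine (out_T θ l M).trans ?_
  rw [hl]
  have : (0 : ℝ) ≤ 4 ^ K := by positivity
  nlinarith

/-- the bits of the block `q` -/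
def bits (ω : ℕ → Bool) (K q : ℕ) : List Bool := (List.range K).map (fun i => ω (q * K + i))

theorem bits_length (ω : ℕ → Bool) (K q : ℕ) : (bits ω K q).length = K := by
  unfold bits
  rw [List.length_map, List.length_range]

/-- the product at the beginning of the block `q` -/
noncomputable def mat (θ : ℝ) (K : ℕ) (ω : ℕ → Bool) : ℕ → Matrix (Fin 2) (Fin 2) ℝ
  | 0 => 1
  | q + 1 => act θ (blk θ K (bits ω K q) (mat θ K ω q)) (mat θ K ω q)

theorem mat_good {θ : ℝ} (hθ : 0 < θ) (hθ1 : θ ≤ 1 / 100) (K : ℕ) (ω : ℕ → Bool) (q : ℕ) :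
    dt (mat θ K ω q) = 1 ∧ T (mat θ K ω q) ≤ 16 := by
  induction q with
  | zero =>
    constructor
    · simp [mat, dt]
    · simp [mat, T]; norm_num
  | succ q ih =>
    rw [mat]
    exact ⟨by rw [act_dt]; exact ih.1, blk_T hθ hθ1 K _ (bits_length _ _ _) _ ih.1 ih.2⟩

/-- the sequence -/
noncomputable def sq (θ : ℝ) (K : ℕ) (ω : ℕ → Bool) : ℤ → Fin 2 := fun i =>
  if i < 0 then 1 else
    (blk θ K (bits ω K (i.toNat / Lb θ K)) (mat θ K ω (i.toNat / Lb θ K))).getD (i.toNat % Lb θ K) 1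

theorem sq_neg (θ : ℝ) (K : ℕ) (ω : ℕ → Bool) {i : ℤ} (hi : i < 0) : sq θ K ω i = 1 := by
  unfold sq
  rw [if_pos hi]

theorem sq_nat (θ : ℝ) (K : ℕ) (ω : ℕ → Bool) (q r : ℕ) (hr : r < Lb θ K) :
    sq θ K ω ((q * Lb θ K + r : ℕ) : ℤ) = (blk θ K (bits ω K q) (mat θ K ω q)).getD r 1 := by
  unfold sq
  rw [if_neg (by omega), Int.toNat_natCast]
  have h1 : (q * Lb θ K + r) / Lb θ K = q := by
    rw [mul_comm, Nat.mul_add_div (by omega), Nat.div_eq_of_lt hr, add_zero]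
  have h2 : (q * Lb θ K + r) % Lb θ K = r := by
    rw [mul_comm, Nat.mul_add_mod, Nat.mod_eq_of_lt hr]
  rw [h1, h2]

theorem prod_blk (θ : ℝ) (K : ℕ) (ω : ℕ → Bool) (q : ℕ) (hq : prod θ (sq θ K ω) (q * Lb θ K) = mat θ K ω q) (r : ℕ)
    (hr : r ≤ Lb θ K) : prod θ (sq θ K ω) (q * Lb θ K + r) =
      act θ ((blk θ K (bits ω K q) (mat θ K ω q)).take r) (mat θ K ω q) := by
  induction r with
  | zero => rw [add_zero, hq, List.take_zero, act_nil]
  | succ r ih =>
    have hlen := blk_length θ K (bits ω K q) (bits_length _ _ _) (mat θ K ω q)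
    rw [← add_assoc, prod_succ, ih (by omega), sq_nat θ K ω q r (by omega),
      List.take_succ_eq_append_getElem (by omega), act_append]
    rw [List.getD_eq_getElem _ _ (by omega)]
    rfl

theorem prod_q (θ : ℝ) (K : ℕ) (ω : ℕ → Bool) (q : ℕ) : prod θ (sq θ K ω) (q * Lb θ K) = mat θ K ω q := by
  induction q with
  | zero => rw [zero_mul]; rfl
  | succ q ih =>
    have h1 := prod_blk θ K ω q ih (Lb θ K) le_rfl
    rw [List.take_of_length_le (by rw [blk_length θ K _ (bits_length _ _ _)])] at h1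
    rw [show (q + 1) * Lb θ K = q * Lb θ K + Lb θ K by ring, h1]
    rfl

theorem prod_T {θ : ℝ} (hθ : 0 < θ) (hθ1 : θ ≤ 1 / 100) (K : ℕ) (hK : 1 ≤ K) (ω : ℕ → Bool) (n : ℕ) :
    T (prod θ (sq θ K ω) n) ≤ 16 * 4 ^ Lb θ K ∧ dt (prod θ (sq θ K ω) n) = 1 := by
  have hL : 0 < Lb θ K := by unfold Lb; omega
  have hr := Nat.mod_lt n hL
  have e1 : n = n / Lb θ K * Lb θ K + n % Lb θ K := (Nat.div_add_mod' n _).symm
  rw [e1, prod_blk θ K ω _ (prod_q θ K ω _) _ hr.le]
  obtain ⟨h1, h2⟩ := mat_good hθ hθ1 K ω (n / Lb θ K)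
  refine ⟨?_, by rw [act_dt]; exact h1⟩
  refine (act_T θ _ _).trans ?_
  have h3 : (4 : ℝ) ^ (List.take (n % Lb θ K) (blk θ K (bits ω K (n / Lb θ K)) (mat θ K ω (n / Lb θ K)))).length ≤
      4 ^ Lb θ K := by
    apply pow_le_pow_right₀ (by norm_num)
    rw [List.length_take]
    omega
  have h4 : (0 : ℝ) ≤ 4 ^ Lb θ K := by positivity
  calc _ ≤ 4 ^ Lb θ K * T (mat θ K ω (n / Lb θ K)) := mul_le_mul_of_nonneg_right h3 (T_nonneg _)
    _ ≤ 4 ^ Lb θ K * 16 := mul_le_mul_of_nonneg_left h2 h4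
    _ = _ := mul_comm _ _

theorem prod_add (θ : ℝ) (y : ℤ → Fin 2) (p k : ℕ) :
    prod θ y (p + k) = prod θ (shift p y) k * prod θ y p := by
  induction k with
  | zero => rw [add_zero, prod, one_mul]
  | succ k ih =>
    rw [← add_assoc, prod_succ, prod_succ, ih, ← mul_assoc]
    have : shift p y k = y ((p + k : ℕ) : ℤ) := by
      unfold shift
      congr 1
      push_cast
      ring
    rw [this]

theorem T_mul_R (θ : ℝ) (y : ℤ → Fin 2) (p : ℕ) (hy : ∀ i : ℕ, i < p → y i = 1) (M : Matrix (Fin 2) (Fin 2) ℝ) :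
    T (M * prod θ y p) = T M := by
  induction p generalizing M with
  | zero => rw [prod, mul_one]
  | succ p ih =>
    have e1 : st θ 1 = R θ := by unfold st; rw [if_neg (by decide)]
    rw [prod_succ, hy p (by omega), e1, ← mul_assoc, ih (fun i hi => hy i (by omega)), T_R]

theorem nrm_le {M : Matrix (Fin 2) (Fin 2) ℝ} {C : ℝ} (hC : 1 ≤ C) (hM : T M ≤ C) : nrm M ≤ C := by
  have key : ∀ t : ℝ, t ^ 2 ≤ C → |t| ≤ C := by
    intro t ht
    apply abs_le_of_sq_le_sq _ (by linarith)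
    nlinarith
  unfold T at hM
  unfold nrm
  refine max_le (max_le (key _ ?_) (key _ ?_)) (max_le (key _ ?_) (key _ ?_)) <;>
    nlinarith [sq_nonneg (M 0 0), sq_nonneg (M 0 1), sq_nonneg (M 1 0), sq_nonneg (M 1 1)]

theorem nrm_quot {X Y : Matrix (Fin 2) (Fin 2) ℝ} {C : ℝ} (hY : dt Y = 1) (hYT : T Y ≤ C) (hZ : T (X * Y) ≤ C) :
    nrm X ≤ C := by
  unfold dt at hY
  have z00 : (X * Y) 0 0 = X 0 0 * Y 0 0 + X 0 1 * Y 1 0 := by simp [Matrix.mul_apply, Fin.sum_univ_two]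
  have z01 : (X * Y) 0 1 = X 0 0 * Y 0 1 + X 0 1 * Y 1 1 := by simp [Matrix.mul_apply, Fin.sum_univ_two]
  have z10 : (X * Y) 1 0 = X 1 0 * Y 0 0 + X 1 1 * Y 1 0 := by simp [Matrix.mul_apply, Fin.sum_univ_two]
  have z11 : (X * Y) 1 1 = X 1 0 * Y 0 1 + X 1 1 * Y 1 1 := by simp [Matrix.mul_apply, Fin.sum_univ_two]
  set Z := X * Y with hZd
  have x00 : X 0 0 = Z 0 0 * Y 1 1 - Z 0 1 * Y 1 0 := by rw [z00, z01]; linear_combination -(X 0 0) * hY
  have x01 : X 0 1 = -(Z 0 0 * Y 0 1) + Z 0 1 * Y 0 0 := by rw [z00, z01]; linear_combination -(X 0 1) * hY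
  have x10 : X 1 0 = Z 1 0 * Y 1 1 - Z 1 1 * Y 1 0 := by rw [z10, z11]; linear_combination -(X 1 0) * hY
  have x11 : X 1 1 = -(Z 1 0 * Y 0 1) + Z 1 1 * Y 0 0 := by rw [z10, z11]; linear_combination -(X 1 1) * hY
  unfold T at hYT hZ
  unfold nrm
  refine max_le (max_le ?_ ?_) (max_le ?_ ?_)
  · rw [x00, abs_le]
    constructor <;>
    nlinarith [sq_nonneg (Z 0 0 + Y 1 1), sq_nonneg (Z 0 0 - Y 1 1), sq_nonneg (Z 0 1 + Y 1 0), sq_nonneg (Z 0 1 - Y 1 0),
      sq_nonneg (Z 1 0), sq_nonneg (Z 1 1), sq_nonneg (Y 0 0), sq_nonneg (Y 0 1)]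
  · rw [x01, abs_le]
    constructor <;>
    nlinarith [sq_nonneg (Z 0 0 + Y 0 1), sq_nonneg (Z 0 0 - Y 0 1), sq_nonneg (Z 0 1 + Y 0 0), sq_nonneg (Z 0 1 - Y 0 0),
      sq_nonneg (Z 1 0), sq_nonneg (Z 1 1), sq_nonneg (Y 1 0), sq_nonneg (Y 1 1)]
  · rw [x10, abs_le]
    constructor <;>
    nlinarith [sq_nonneg (Z 1 0 + Y 1 1), sq_nonneg (Z 1 0 - Y 1 1), sq_nonneg (Z 1 1 + Y 1 0), sq_nonneg (Z 1 1 - Y 1 0),
      sq_nonneg (Z 0 0), sq_nonneg (Z 0 1), sq_nonneg (Y 0 0), sq_nonneg (Y 0 1)]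
  · rw [x11, abs_le]
    constructor <;>
    nlinarith [sq_nonneg (Z 1 0 + Y 0 1), sq_nonneg (Z 1 0 - Y 0 1), sq_nonneg (Z 1 1 + Y 0 0), sq_nonneg (Z 1 1 - Y 0 0),
      sq_nonneg (Z 0 0), sq_nonneg (Z 0 1), sq_nonneg (Y 1 0), sq_nonneg (Y 1 1)]

theorem sq_mem {θ : ℝ} (hθ : 0 < θ) (hθ1 : θ ≤ 1 / 100) (K : ℕ) (hK : 1 ≤ K) (ω : ℕ → Bool) :
    sq θ K ω ∈ B θ ((16 * 4 ^ Lb θ K : ℕ) : ℝ) := by
  intro m n
  push_cast
  have hC : (1 : ℝ) ≤ 16 * 4 ^ Lb θ K := by
    have : (1 : ℝ) ≤ 4 ^ Lb θ K := one_le_pow₀ (by norm_num)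
    linarith
  rcases le_or_gt 0 m with hm | hm
  · obtain ⟨p, rfl⟩ := Int.eq_ofNat_of_zero_le hm
    have h1 := prod_add θ (sq θ K ω) p n
    apply nrm_quot (Y := prod θ (sq θ K ω) p) (prod_T hθ hθ1 K hK ω p).2 (prod_T hθ hθ1 K hK ω p).1
    rw [← h1]
    exact (prod_T hθ hθ1 K hK ω _).1
  · obtain ⟨p, hp⟩ := Int.eq_ofNat_of_zero_le (show 0 ≤ -m by omega)
    have hm' : m = -(p : ℤ) := by omega
    apply nrm_le hC
    have hy : ∀ i : ℕ, i < p → shift m (sq θ K ω) i = 1 := by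
      intro i hi
      unfold shift
      exact sq_neg _ _ _ (by omega)
    rcases Nat.lt_or_ge n p with hn | hn
    · have h1 := T_mul_R θ (shift m (sq θ K ω)) n (fun i hi => hy i (by omega)) 1
      rw [one_mul] at h1
      rw [h1]
      have h2 : T (1 : Matrix (Fin 2) (Fin 2) ℝ) = 2 := by simp [T]; norm_num
      rw [h2]
      have : (1 : ℝ) ≤ 4 ^ Lb θ K := one_le_pow₀ (by norm_num)
      linarith
    · obtain ⟨k, rfl⟩ := Nat.exists_eq_add_of_le hn
      rw [prod_add, T_mul_R θ _ p hy]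
      have e1 : shift p (shift m (sq θ K ω)) = sq θ K ω := by
        funext i
        unfold shift
        congr 1
        omega
      rw [e1]
      exact (prod_T hθ hθ1 K hK ω k).1

theorem sq_bit (θ : ℝ) (K : ℕ) (ω : ℕ → Bool) (q i : ℕ) (hi : i < K) :
    sq θ K ω ((q * Lb θ K + 2 * i : ℕ) : ℤ) = if ω (q * K + i) then 1 else 0 := by
  rw [sq_nat θ K ω q (2 * i) (by unfold Lb; omega)]
  unfold blk
  have hl := bits_length ω K q
  have h1 := out_get (bits ω K q) i (by omega)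
  rw [List.getD_eq_getElem?_getD, List.getElem?_append_left (by rw [out_length, hl]; omega), h1]
  simp [bits]

theorem words_card {θ : ℝ} (hθ : 0 < θ) (hθ1 : θ ≤ 1 / 100) (K : ℕ) (hK : 1 ≤ K) (N : ℕ) :
    2 ^ (N * K) ≤ (words (B θ ((16 * 4 ^ Lb θ K : ℕ) : ℝ)) (N * Lb θ K)).ncard := by
  set ext : (Fin (N * K) → Bool) → ℕ → Bool := fun ω j => if h : j < N * K then ω ⟨j, h⟩ else false with hext
  set f : (Fin (N * K) → Bool) → (Fin (N * Lb θ K) → Fin 2) := fun ω i => sq θ K (ext ω) ((i : ℕ) : ℤ) with hf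
  have hinj : Function.Injective f := by
    intro ω ω' h
    funext j
    have hj := j.2
    have hKp : 0 < K := hK
    have hq : (j : ℕ) / K < N := by
      rw [Nat.div_lt_iff_lt_mul hKp]; exact hj
    have hi : (j : ℕ) % K < K := Nat.mod_lt _ hKp
    have hpos : (j : ℕ) / K * Lb θ K + 2 * ((j : ℕ) % K) < N * Lb θ K := by
      have h1 : ((j : ℕ) / K + 1) * Lb θ K ≤ N * Lb θ K := Nat.mul_le_mul_right _ hq
      have h2 : 2 * ((j : ℕ) % K) < Lb θ K := by unfold Lb; omega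
      rw [add_mul, one_mul] at h1
      omega
    have h1 := congrFun h ⟨_, hpos⟩
    simp only [hf] at h1
    rw [sq_bit _ _ _ _ _ hi, sq_bit _ _ _ _ _ hi, Nat.div_add_mod'] at h1
    simp only [hext, hj, dite_true] at h1
    have e : (⟨(j : ℕ), hj⟩ : Fin (N * K)) = j := rfl
    rw [e] at h1
    cases h2 : ω j <;> cases h3 : ω' j <;> simp_all
  have hcard : (Set.range f).ncard = 2 ^ (N * K) := by
    rw [← Set.image_univ, Set.ncard_image_of_injective _ hinj, Set.ncard_univ, Nat.card_eq_fintype_card]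
    simp
  rw [← hcard]
  apply Set.ncard_le_ncard _ (Set.toFinite _)
  rintro _ ⟨ω, rfl⟩
  exact ⟨_, sq_mem hθ hθ1 K hK (ext ω), fun i => rfl⟩

end seq

section ent

theorem words_le (S : Set (ℤ → Fin 2)) (n : ℕ) : (words S n).ncard ≤ 2 ^ n := by
  calc (words S n).ncard ≤ (Set.univ : Set (Fin n → Fin 2)).ncard := Set.ncard_le_ncard (Set.subset_univ _) (Set.toFinite _)
    _ = 2 ^ n := by rw [Set.ncard_univ, Nat.card_eq_fintype_card]; simp

theorem rate_nonneg (S : Set (ℤ → Fin 2)) (n : ℕ) : 0 ≤ Real.log ((words S n).ncard : ℝ) / n :=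
  div_nonneg (Real.log_natCast_nonneg _) (Nat.cast_nonneg n)

theorem rate_le (S : Set (ℤ → Fin 2)) (n : ℕ) : Real.log ((words S n).ncard : ℝ) / n ≤ Real.log 2 := by
  have hl2 : 0 ≤ Real.log 2 := Real.log_nonneg (by norm_num)
  rcases Nat.eq_zero_or_pos n with rfl | hn
  · simpa using hl2
  have hn0 : (0 : ℝ) < n := by exact_mod_cast hn
  rw [div_le_iff₀ hn0]
  rcases Nat.eq_zero_or_pos (words S n).ncard with h0 | h0
  · rw [h0]
    simp only [Nat.cast_zero, Real.log_zero]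
    positivity
  · calc Real.log ((words S n).ncard : ℝ) ≤ Real.log ((2 : ℝ) ^ n) := by
          apply Real.log_le_log (by exact_mod_cast h0)
          exact_mod_cast words_le S n
      _ = Real.log 2 * n := by rw [Real.log_pow]; ring

theorem bdd (S : Set (ℤ → Fin 2)) :
    IsBoundedUnder (· ≤ ·) atTop (fun n : ℕ => Real.log ((words S n).ncard : ℝ) / n) :=
  isBoundedUnder_of ⟨Real.log 2, rate_le S⟩

theorem cobdd (S : Set (ℤ → Fin 2)) :
    IsCoboundedUnder (· ≤ ·) atTop (fun n : ℕ => Real.log ((words S n).ncard : ℝ) / n) :=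
  (isBoundedUnder_of ⟨0, rate_nonneg S⟩ :
    IsBoundedUnder (· ≥ ·) atTop (fun n : ℕ => Real.log ((words S n).ncard : ℝ) / n)).isCoboundedUnder_le

theorem entropy_le (S : Set (ℤ → Fin 2)) : entropy S ≤ Real.log 2 :=
  limsup_le_of_le (cobdd S) (Eventually.of_forall (rate_le S))

theorem le_entropy (S : Set (ℤ → Fin 2)) {c : ℝ}
    (h : ∃ᶠ n : ℕ in atTop, c ≤ Real.log ((words S n).ncard : ℝ) / n) : c ≤ entropy S :=
  le_limsup_of_frequently_le h (bdd S)

theorem entropy_nonneg (S : Set (ℤ → Fin 2)) : 0 ≤ entropy S :=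
  le_entropy S (Frequently.of_forall (rate_nonneg S))

theorem bddh (θ : ℝ) : BddAbove (Set.range (fun κ : ℕ => entropy (B θ κ))) :=
  ⟨Real.log 2, by rintro _ ⟨κ, rfl⟩; exact entropy_le _⟩

theorem low_K {θ : ℝ} (hθ : 0 < θ) (hθ1 : θ ≤ 1 / 100) (K : ℕ) (hK : 1 ≤ K) :
    K * Real.log 2 / (Lb θ K) ≤ h θ := by
  have hL : 0 < Lb θ K := by unfold Lb; omega
  have hL0 : (0 : ℝ) < Lb θ K := by exact_mod_cast hL
  refine le_trans ?_ (le_ciSup (bddh θ) (16 * 4 ^ Lb θ K))
  apply le_entropy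
  rw [frequently_atTop]
  intro N
  refine ⟨(N + 1) * Lb θ K, ?_, ?_⟩
  · calc N ≤ (N + 1) * 1 := by omega
      _ ≤ _ := Nat.mul_le_mul_left _ hL
  · have h1 := words_card hθ hθ1 K hK (N + 1)
    have hN : (0 : ℝ) < (((N + 1) * Lb θ K : ℕ) : ℝ) := by exact_mod_cast Nat.mul_pos (Nat.succ_pos N) hL
    rw [le_div_iff₀ hN]
    have h2 : ((N + 1) * K : ℝ) * Real.log 2 ≤
        Real.log ((words (B θ ((16 * 4 ^ Lb θ K : ℕ) : ℝ)) ((N + 1) * Lb θ K)).ncard : ℝ) := by
      have h3 : ((2 : ℝ) ^ ((N + 1) * K)) ≤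
          ((words (B θ ((16 * 4 ^ Lb θ K : ℕ) : ℝ)) ((N + 1) * Lb θ K)).ncard : ℝ) := by exact_mod_cast h1
      have h4 := Real.log_le_log (by positivity) h3
      rw [Real.log_pow] at h4
      push_cast at h4 ⊢
      exact h4
    refine le_trans (le_of_eq ?_) h2
    push_cast
    field_simp

theorem low {θ : ℝ} (hθ : 0 < θ) (hθ1 : θ ≤ 1 / 100) : Real.log 2 / 14 ≤ h θ := by
  by_contra hlt
  push Not at hlt
  have hh : 0 ≤ h θ := (entropy_nonneg _).trans (le_ciSup (bddh θ) 0)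
  have hd : 0 < Real.log 2 - 14 * h θ := by linarith
  obtain ⟨K, hK⟩ := exists_nat_gt ((⌊Real.pi / θ⌋₊ : ℝ) * h θ / (Real.log 2 - 14 * h θ))
  have h1 := low_K hθ hθ1 (K + 1) (by omega)
  have hL : 0 < Lb θ (K + 1) := by unfold Lb; omega
  have hL0 : (0 : ℝ) < Lb θ (K + 1) := by exact_mod_cast hL
  rw [div_le_iff₀ hL0] at h1
  have h2 : (Lb θ (K + 1) : ℝ) = 14 * (K + 1) + ⌊Real.pi / θ⌋₊ := by
    unfold Lb Lr
    push_cast
    ring
  rw [h2] at h1
  rw [div_lt_iff₀ hd] at hK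
  push_cast at h1
  nlinarith

end ent

section zero

theorem zero_entry (x : ℤ → Fin 2) (n : ℕ) :
    (prod 0 x n) 0 0 = 2 ^ ((Finset.range n).filter (fun i : ℕ => x i = 0)).card := by
  induction n with
  | zero => simp [prod]
  | succ n ih =>
    rw [prod_succ, Finset.range_add_one, Finset.filter_insert]
    unfold st
    split_ifs with h
    · rw [Finset.card_insert_of_notMem (by simp), pow_succ, ← ih]
      simp only [D, Matrix.mul_apply, Fin.sum_univ_two, Matrix.of_apply, Matrix.cons_val', Matrix.cons_val_zero,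
        Matrix.cons_val_one, Matrix.cons_val_fin_one]
      ring
    · rw [← ih]
      simp only [R, Matrix.mul_apply, Fin.sum_univ_two, Matrix.of_apply, Matrix.cons_val', Matrix.cons_val_zero,
        Matrix.cons_val_one, Matrix.cons_val_fin_one, Real.cos_zero, Real.sin_zero]
      ring

theorem zero_card {κ : ℕ} {x : ℤ → Fin 2} (hx : x ∈ B 0 κ) (n : ℕ) :
    ((Finset.range n).filter (fun i : ℕ => x i = 0)).card ≤ κ := by
  have h1 := hx 0 n
  have e1 : shift 0 x = x := by funext i; unfold shift; rw [add_zero]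
  rw [e1] at h1
  have h2 : |(prod 0 x n) 0 0| ≤ κ := le_trans (le_trans (le_max_left _ _) (le_max_left _ _)) h1
  rw [zero_entry, abs_of_nonneg (by positivity)] at h2
  have h3 : 2 ^ ((Finset.range n).filter (fun i : ℕ => x i = 0)).card ≤ κ := by exact_mod_cast h2
  exact (Nat.lt_two_pow_self).le.trans h3

theorem few (κ n : ℕ) : (words (B 0 κ) n).ncard ≤ (n + 1) ^ κ := by
  classical
  set F : (Fin κ → Fin (n + 1)) → (Fin n → Fin 2) := fun g i => if ∃ t, g t = i.castSucc then 0 else 1 with hF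
  have hsub : words (B 0 κ) n ⊆ Set.range F := by
    rintro w ⟨x, hx, hw⟩
    have hc := zero_card hx n
    set Z : Finset (Fin n) := Finset.univ.filter (fun i => w i = 0) with hZ
    have hZc : Z.card ≤ κ := by
      refine le_trans (le_of_eq ?_) hc
      rw [← Finset.card_map Fin.valEmbedding]
      congr 1
      ext i
      simp only [hZ, Finset.mem_map, Finset.mem_filter, Finset.mem_univ, true_and, Fin.valEmbedding_apply,
        Finset.mem_range]
      constructor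
      · rintro ⟨j, hj, rfl⟩
        exact ⟨j.2, by rw [← hw j]; exact hj⟩
      · rintro ⟨hi, h0⟩
        exact ⟨⟨i, hi⟩, by rw [hw]; exact h0, rfl⟩
    refine ⟨fun t => ((Z.toList.map Fin.castSucc).getD t (Fin.last n)), ?_⟩
    funext i
    simp only [hF]
    have key : (∃ t : Fin κ, (Z.toList.map Fin.castSucc).getD t (Fin.last n) = i.castSucc) ↔ w i = 0 := by
      constructor
      · rintro ⟨t, ht⟩
        by_cases h1 : (t : ℕ) < (Z.toList.map Fin.castSucc).length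
        · rw [List.getD_eq_getElem _ _ h1, List.getElem_map] at ht
          have h2 := Fin.castSucc_injective n ht
          have h3 : Z.toList[(t : ℕ)]'(by simpa using h1) ∈ Z.toList := List.getElem_mem _
          rw [h2, Finset.mem_toList, hZ, Finset.mem_filter] at h3
          exact h3.2
        · rw [List.getD_eq_default _ _ (by omega)] at ht
          exact absurd ht.symm (Fin.castSucc_lt_last i).ne
      · intro h0
        have h1 : i ∈ Z.toList := by
          rw [Finset.mem_toList, hZ, Finset.mem_filter]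
          exact ⟨Finset.mem_univ _, h0⟩
        obtain ⟨t, ht, h2⟩ := List.getElem_of_mem h1
        have hlen : Z.toList.length = Z.card := Finset.length_toList Z
        refine ⟨⟨t, by omega⟩, ?_⟩
        rw [List.getD_eq_getElem _ _ (by simpa using ht), List.getElem_map]
        simp only [h2]
    by_cases h0 : w i = 0
    · rw [if_pos (key.2 h0), h0]
    · rw [if_neg (fun h => h0 (key.1 h))]
      have : ∀ s : Fin 2, s ≠ 0 → 1 = s := by decide
      exact this _ h0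
  calc (words (B 0 κ) n).ncard ≤ (Set.range F).ncard := Set.ncard_le_ncard hsub (Set.toFinite _)
    _ ≤ Nat.card (Fin κ → Fin (n + 1)) := by
      rw [← Set.image_univ]
      refine (Set.ncard_image_le (Set.toFinite _)).trans ?_
      rw [Set.ncard_univ]
    _ = (n + 1) ^ κ := by
      rw [Nat.card_eq_fintype_card]
      simp

theorem ent_zero (κ : ℕ) : entropy (B 0 κ) = 0 := by
  have h1 : Tendsto (fun n : ℕ => (κ : ℝ) * (Real.log ((n + 1 : ℕ) : ℝ) / n)) atTop (𝓝 (κ * 0)) := by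
    apply Tendsto.const_mul
    have h2 := (Real.tendsto_pow_log_div_mul_add_atTop 1 (-1) 1 one_ne_zero).comp
      (tendsto_natCast_atTop_atTop.comp (tendsto_add_atTop_nat 1))
    refine h2.congr fun n => ?_
    simp only [Function.comp_apply]
    push_cast
    congr 1
    · ring
    · ring
  rw [mul_zero] at h1
  have h2 : Tendsto (fun n : ℕ => Real.log ((words (B 0 κ) n).ncard : ℝ) / n) atTop (𝓝 0) := by
    refine squeeze_zero (rate_nonneg _) (fun n => ?_) h1
    rw [← mul_div_assoc]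
    apply div_le_div_of_nonneg_right _ (Nat.cast_nonneg n)
    rcases Nat.eq_zero_or_pos (words (B 0 κ) n).ncard with h0 | h0
    · rw [h0]
      simp only [Nat.cast_zero, Real.log_zero]
      exact mul_nonneg (Nat.cast_nonneg κ) (Real.log_natCast_nonneg _)
    · calc Real.log ((words (B 0 κ) n).ncard : ℝ) ≤ Real.log (((n + 1 : ℕ) : ℝ) ^ κ) := by
            apply Real.log_le_log (by exact_mod_cast h0)
            exact_mod_cast few κ n
        _ = _ := by rw [Real.log_pow]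
  exact h2.limsup_eq

theorem h_zero : h 0 = 0 := by
  unfold h
  simp only [ent_zero]
  exact ciSup_const

theorem prod_neg (θ : ℝ) (x : ℤ → Fin 2) (n : ℕ) :
    (prod (-θ) x n) 0 0 = (prod θ x n) 0 0 ∧ (prod (-θ) x n) 0 1 = -(prod θ x n) 0 1 ∧
    (prod (-θ) x n) 1 0 = -(prod θ x n) 1 0 ∧ (prod (-θ) x n) 1 1 = (prod θ x n) 1 1 := by
  induction n with
  | zero => simp [prod]
  | succ n ih =>
    obtain ⟨h1, h2, h3, h4⟩ := ih
    rw [prod_succ, prod_succ]
    unfold st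
    split_ifs
    · simp only [D, Matrix.mul_apply, Fin.sum_univ_two, Matrix.of_apply, Matrix.cons_val', Matrix.cons_val_zero,
        Matrix.cons_val_one, Matrix.cons_val_fin_one, h1, h2, h3, h4]
      refine ⟨?_, ?_, ?_, ?_⟩ <;> ring
    · simp only [R, Matrix.mul_apply, Fin.sum_univ_two, Matrix.of_apply, Matrix.cons_val', Matrix.cons_val_zero,
        Matrix.cons_val_one, Matrix.cons_val_fin_one, h1, h2, h3, h4, Real.cos_neg, Real.sin_neg]
      refine ⟨?_, ?_, ?_, ?_⟩ <;> ring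

theorem h_neg (θ : ℝ) : h (-θ) = h θ := by
  have e : ∀ κ : ℝ, B (-θ) κ = B θ κ := by
    intro κ
    ext x
    have key : ∀ (m : ℤ) (n : ℕ), nrm (prod (-θ) (shift m x) n) = nrm (prod θ (shift m x) n) := by
      intro m n
      obtain ⟨h1, h2, h3, h4⟩ := prod_neg θ (shift m x) n
      unfold nrm
      rw [h1, h2, h3, h4, abs_neg, abs_neg]
    constructor
    · intro hx m n
      rw [← key]
      exact hx m n
    · intro hx m n
      rw [key]
      exact hx m n
  unfold h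
  simp only [e]

end zero

/-- **The answer to Q1 is no: `h` is discontinuous at `θ = 0`.** All the entropies are in `[0, log 2]`, `h 0 = 0`, and
`h θ ≥ (log 2) / 14` for `0 < |θ| ≤ 1 / 100`. -/
theorem result :
    (∀ (θ : ℝ) (κ : ℕ), 0 ≤ entropy (B θ κ) ∧ entropy (B θ κ) ≤ Real.log 2) ∧
    h 0 = 0 ∧
    (∀ θ : ℝ, θ ≠ 0 → |θ| ≤ 1 / 100 → Real.log 2 / 14 ≤ h θ) ∧
    ¬ ContinuousAt h 0 ∧ ¬ Continuous h := by
  have hlow : ∀ θ : ℝ, θ ≠ 0 → |θ| ≤ 1 / 100 → Real.log 2 / 14 ≤ h θ := by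
    intro θ h0 h1
    rcases lt_or_gt_of_ne h0 with h2 | h2
    · rw [← h_neg]
      rw [abs_of_neg h2] at h1
      exact low (by linarith) h1
    · rw [abs_of_pos h2] at h1
      exact low h2 h1
  have hnc : ¬ ContinuousAt h 0 := by
    intro hc
    have hl : 0 < Real.log 2 := Real.log_pos (by norm_num)
    rw [Metric.continuousAt_iff] at hc
    obtain ⟨δ, hδ, h1⟩ := hc (Real.log 2 / 14) (by positivity)
    set θ : ℝ := min (δ / 2) (1 / 100) with hθ
    have hθ0 : 0 < θ := lt_min (by positivity) (by norm_num)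
    have hθ1 : θ ≤ 1 / 100 := min_le_right _ _
    have hθ2 : θ < δ := lt_of_le_of_lt (min_le_left _ _) (by linarith)
    have h2 := h1 (x := θ) (by rw [Real.dist_eq, sub_zero, abs_of_pos hθ0]; exact hθ2)
    rw [h_zero, Real.dist_eq, sub_zero] at h2
    have h3 := hlow θ hθ0.ne' (by rw [abs_of_pos hθ0]; exact hθ1)
    have h4 := le_abs_self (h θ)
    linarith
  exact ⟨fun θ κ => ⟨entropy_nonneg _, entropy_le _⟩, h_zero, hlow, hnc, fun hc => hnc hc.continuousAt⟩

end Pool.Agent.Results.MP_3f0cb5_an.DiscontinuousAtZero
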